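import Pool.Agent.V8H72.QuatCSet
import Pool.Agent.Results.MP_64d585_al.Extension

/-!
# MP_64d585_al, Q2: extension of invariant `(HA, φ)`-neutral subspaces with a prescribed c-set
-/

set_option autoImplicit false

namespace Pool.Agent.Results.MP_64d585_al.CSetExtension

open Quaternion MulOpposite Matrix Pool.Agent.R713 Pool.Agent.V8H72
open Pool.Agent.Results.MP_64d585_al.Extension

/-- `l` is an eigenvalue of `A` with an eigenvector in `M`: there is a nonzero `x ∈ M` with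
`A x = x l`.  For an `A`-invariant `M` these are the eigenvalues of the restriction of `A` to `M`,
and for `M = ⊤` they are the eigenvalues of `A`. -/
def IsEigOn {n : ℕ} (A : Matrix (Fin n) (Fin n) ℍ[ℝ]) (M : Sub n) (l : ℍ[ℝ]) : Prop :=
  ∃ x ∈ M, x ≠ 0 ∧ A *ᵥ x = fun i => x i * l

/-- The three properties of sets of eigenvalues of `A` used in the definition of a c-set: all
elements are eigenvalues of `A` with nonzero real part, the set is closed under quaternion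
similarity, and it does not contain both `l` and `-l`. -/
def PreCSet {n : ℕ} (A : Matrix (Fin n) (Fin n) ℍ[ℝ]) (S : Set ℍ[ℝ]) : Prop :=
  (∀ l ∈ S, IsEigOn A ⊤ l ∧ l.re ≠ 0) ∧ (∀ l ∈ S, ∀ q : ℍ[ℝ], q ≠ 0 → q⁻¹ * l * q ∈ S) ∧
    ∀ l ∈ S, -l ∉ S

/-- A c-set of `A`: an inclusion-maximal set of eigenvalues with the three properties. -/
def IsCSet {n : ℕ} (A : Matrix (Fin n) (Fin n) ℍ[ℝ]) (S : Set ℍ[ℝ]) : Prop :=
  PreCSet A S ∧ ∀ S' : Set ℍ[ℝ], PreCSet A S' → S ⊆ S' → S' = S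

/-- The set of the eigenvalues of `A` restricted to `M` with nonzero real part. -/
def eigSet {n : ℕ} (A : Matrix (Fin n) (Fin n) ℍ[ℝ]) (M : Sub n) : Set ℍ[ℝ] :=
  {l | IsEigOn A M l ∧ l.re ≠ 0}

variable {n : ℕ} {φ : ℍ[ℝ] →ₗ[ℝ] ℍ[ℝ]}

theorem smul_fun (x : Fin n → ℍ[ℝ]) (l : ℍ[ℝ]) : op l • x = fun i => x i * l := by
  funext i
  rw [Pi.smul_apply, op_smul_eq_mul]

theorem isEigOn_iff (A : Matrix (Fin n) (Fin n) ℍ[ℝ]) (M : Sub n) (l : ℍ[ℝ]) :
    IsEigOn A M l ↔ ∃ x ∈ M, x ≠ 0 ∧ lin A x = op l • x := by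
  unfold IsEigOn
  simp only [smul_fun]
  rfl

/-- eigenvalues are closed under similarity -/
theorem IsEigOn.sim {A : Matrix (Fin n) (Fin n) ℍ[ℝ]} {M : Sub n} {l : ℍ[ℝ]}
    (h : IsEigOn A M l) {q : ℍ[ℝ]} (hq : q ≠ 0) : IsEigOn A M (q⁻¹ * l * q) := by
  rw [isEigOn_iff] at h ⊢
  obtain ⟨x, hx, hx0, he⟩ := h
  refine ⟨op q • x, M.smul_mem _ hx, ?_, ?_⟩
  · intro h2
    apply hx0
    have h3 : op q⁻¹ • op q • x = 0 := by rw [h2, smul_zero]
    rw [smul_smul, ← op_mul, mul_inv_cancel₀ hq, op_one, one_smul] at h3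
    exact h3
  · rw [map_smul, he, smul_smul, smul_smul, ← op_mul, ← op_mul, ← mul_assoc, ← mul_assoc,
      mul_inv_cancel₀ hq, one_mul]

/-- maximality of a c-set -/
theorem cset_max {A : Matrix (Fin n) (Fin n) ℍ[ℝ]} {S : Set ℍ[ℝ]} (hS : IsCSet A S) {l : ℍ[ℝ]}
    (hl : l.re ≠ 0) (he : IsEigOn A ⊤ l) : l ∈ S ∨ -l ∈ S := by
  by_contra hcon
  push Not at hcon
  obtain ⟨h1, h2⟩ := hcon
  have hsim : SimClosed S := hS.1.2.1
  -- the similarity class
  let T : Set ℍ[ℝ] := {m | ∃ q : ℍ[ℝ], q ≠ 0 ∧ m = q⁻¹ * l * q}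
  have hre : ∀ q : ℍ[ℝ], q ≠ 0 → (q⁻¹ * l * q).re = l.re := by
    intro q hq
    have e : ∀ a b : ℍ[ℝ], (a * b).re = (b * a).re := by
      intro a b
      rw [Quaternion.re_mul, Quaternion.re_mul]
      ring
    rw [e, ← mul_assoc, mul_inv_cancel₀ hq, one_mul]
  have hpre : PreCSet A (S ∪ T) := by
    refine ⟨?_, ?_, ?_⟩
    · rintro m (hm | ⟨q, hq, rfl⟩)
      · exact hS.1.1 m hm
      · exact ⟨he.sim hq, by rw [hre q hq]; exact hl⟩
    · rintro m (hm | ⟨q, hq, rfl⟩) r hr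
      · exact Or.inl (hS.1.2.1 m hm r hr)
      · refine Or.inr ⟨q * r, mul_ne_zero hq hr, ?_⟩
        rw [_root_.mul_inv_rev]
        simp only [mul_assoc]
    · rintro m (hm | ⟨q, hq, rfl⟩) hm'
      · rcases hm' with hm' | ⟨q, hq, hm'⟩
        · exact hS.1.2.2 m hm hm'
        · apply h2
          have h3 : m = q⁻¹ * (-l) * q := by rw [mul_neg, neg_mul, ← hm', neg_neg]
          refine hsim.mem_of (q := q) hm hq ?_
          rw [h3, ← mul_assoc, ← mul_assoc, mul_inv_cancel₀ hq, one_mul]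
      · rcases hm' with hm' | ⟨r, hr, hm'⟩
        · apply h2
          refine hsim.mem_of (q := q) hm' hq ?_
          rw [mul_neg, ← mul_assoc, ← mul_assoc, mul_inv_cancel₀ hq, one_mul, neg_mul]
        · have h3 := congrArg (fun q : ℍ[ℝ] => q.re) hm'
          simp only [Quaternion.re_neg] at h3
          rw [hre q hq, hre r hr] at h3
          apply hl
          linarith
  have h4 := hS.2 _ hpre Set.subset_union_left
  apply h1
  rw [← h4]
  exact Or.inr ⟨1, one_ne_zero, by rw [inv_one, one_mul, mul_one]⟩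

theorem neg_pair_phiT (G : Matrix (Fin n) (Fin n) ℍ[ℝ]) (hG : phiT φ G = -G) :
    phiT φ (-G) = -(-G) := by
  rw [← hG]
  ext1 i j
  simp only [phiT, Matrix.of_apply, Matrix.neg_apply]
  rw [← map_neg, ← Matrix.neg_apply, ← hG]
  simp [phiT]

/-- the radical of the form of an invertible matrix times `A` is the kernel of `A` -/
theorem radical (h : NonstandardInvolution φ) {β : ℍ[ℝ]} (hβ0 : β ≠ 0)
    (H A : Matrix (Fin n) (Fin n) ℍ[ℝ]) (hH : IsUnit H) (x : Fin n → ℍ[ℝ])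
    (hx : ∀ y, β⁻¹ * pair φ (H * A) y x = 0) : A *ᵥ x = 0 := by
  have h1 : (H * A) *ᵥ x = 0 := by
    funext i
    have h2 := hx (Pi.single i 1)
    have h3 : pair φ (H * A) (Pi.single i 1) x = ((H * A) *ᵥ x) i := by
      rw [pair]
      have : (fun j => φ ((Pi.single i (1 : ℍ[ℝ]) : Fin n → ℍ[ℝ]) j)) = Pi.single i 1 := by
        funext j
        rcases eq_or_ne j i with rfl | hj
        · rw [Pi.single_eq_same, phi_one h]
        · rw [Pi.single_eq_of_ne hj, map_zero]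
      rw [this, single_dotProduct, one_mul]
    rw [h3] at h2
    rcases mul_eq_zero.1 h2 with h4 | h4
    · exact absurd h4 (inv_ne_zero hβ0)
    · exact h4
  obtain ⟨u, rfl⟩ := hH
  have h5 : (↑u⁻¹ : Matrix (Fin n) (Fin n) ℍ[ℝ]) *ᵥ
      (((u : Matrix (Fin n) (Fin n) ℍ[ℝ]) * A) *ᵥ x) = 0 := by
    rw [h1, Matrix.mulVec_zero]
  rw [Matrix.mulVec_mulVec, ← mul_assoc, Units.inv_mul, one_mul] at h5
  exact h5

theorem main (h : NonstandardInvolution φ) {β : ℍ[ℝ]} (hβ : φ β = -β) (hnβ : normSq β = 1)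
    (G A : Matrix (Fin n) (Fin n) ℍ[ℝ]) (hG : phiT φ G = -G)
    (hA : ∀ x y, β⁻¹ * pair φ G (A *ᵥ x) y = -(β⁻¹ * pair φ G x (A *ᵥ y)))
    (hrad : ∀ x, (∀ y, β⁻¹ * pair φ G y x = 0) → A *ᵥ x = 0)
    (N : Sub n) (hN : Invariant A N) (hneu : Neutral φ G N) (S : Set ℍ[ℝ]) (hS : IsCSet A S)
    (hNS : eigSet A N ⊆ S) :
    ∃ L : Sub n, N ≤ L ∧ Invariant A L ∧ Extension.Maximal (Nonneg φ β G) L ∧ eigSet A L = S := by
  have hn : ∀ M : Sub n, Nonneg φ β G M ↔
      QNonneg (fun x y : Fin n → ℍ[ℝ] => β⁻¹ * pair φ G x y) M := by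
    intro M
    constructor
    · intro h x hx
      obtain ⟨r, hr, he⟩ := h x hx
      simp only [he]
      rw [Quaternion.re_coe]
      exact hr
    · intro h' x hx
      exact ⟨_, h' x hx, (qherm h hβ hnβ G hG).real x⟩
  obtain ⟨L, h1, h2, h3, h4, h5⟩ := extend_cset (qherm h hβ hnβ G hG) (lin A) hA
    (by
      intro x hx
      apply hrad
      intro y
      have h6 := (qherm h hβ hnβ G hG).symm x y
      rw [h6, hx y, star_zero])
    N hN (fun x hx y hy => by simp only [hneu y hy x hx, mul_zero]) S hS.1.2.1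
    (fun l hl => (hS.1.1 l hl).2) hS.1.2.2
    (fun l hl => by
      obtain ⟨x, -, hx0, hx⟩ := (isEigOn_iff A ⊤ l).1 (hS.1.1 l hl).1
      exact ⟨x, hx0, hx⟩)
    (fun l hl he => by
      obtain ⟨x, hx0, hx⟩ := he
      exact cset_max hS hl ((isEigOn_iff A ⊤ l).2 ⟨x, Submodule.mem_top, hx0, hx⟩))
    (fun l hl he => hNS ⟨(isEigOn_iff A N l).2 he, hl⟩)
  refine ⟨L, h1, h2, ⟨(hn L).2 h3, fun M hM hM' => h4 M hM ((hn M).1 hM')⟩, ?_⟩
  rw [← h5]
  ext l
  change IsEigOn A L l ∧ l.re ≠ 0 ↔ _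
  rw [isEigOn_iff, and_comm]
  rfl

/-- For every nonstandard involution `φ`, every `β` with `φ β = -β` and `|β| = 1`, every invertible
`φ`-hermitian `H`, every `(H, φ)`-skewsymmetric `A` and every `A`-invariant `(HA, φ)`-neutral
subspace `N` such that no two eigenvalues of `A|N` with nonzero real part are negatives of each
other, and for every c-set `S` of `A` that contains all the eigenvalues of `A|N` with nonzero real
part, there are `A`-invariant subspaces `L₊` and `L₋` containing `N`, maximal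
`(HA, φ)`-nonnegative and maximal `(HA, φ)`-nonpositive, respectively, such that `S` is exactly
the set of the eigenvalues of `A|L₊`, and of `A|L₋`, with nonzero real part. -/
theorem result (φ : ℍ[ℝ] →ₗ[ℝ] ℍ[ℝ]) (hφ : NonstandardInvolution φ) (β : ℍ[ℝ])
    (hβ : φ β = -β) (hβ1 : ‖β‖ = 1) (n : ℕ) (H A : Matrix (Fin n) (Fin n) ℍ[ℝ])
    (hH' : IsUnit H) (hH : phiT φ H = H) (hA : H * A = -(phiT φ A * H)) (N : Sub n)
    (hN : Invariant A N) (hneu : Neutral φ (H * A) N)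
    (_hS₀ : ∀ l ∈ eigSet A N, -l ∉ eigSet A N)
    (S : Set ℍ[ℝ]) (hS : IsCSet A S) (hNS : eigSet A N ⊆ S) :
    (∃ L : Sub n, N ≤ L ∧ Invariant A L ∧ Extension.Maximal (Nonneg φ β (H * A)) L ∧ eigSet A L = S) ∧
    (∃ L : Sub n, N ≤ L ∧ Invariant A L ∧ Extension.Maximal (Nonpos φ β (H * A)) L ∧ eigSet A L = S) := by
  have hnβ : normSq β = 1 := by
    rw [Quaternion.normSq_eq_norm_mul_self, hβ1, mul_one]
  have hβ0 : β ≠ 0 := by
    rintro rfl
    simp at hβ1
  have hG : phiT φ (H * A) = -(H * A) := by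
    rw [phiT_mul hφ, hH, hA, neg_neg]
  refine ⟨main hφ hβ hnβ (H * A) A hG (skew hφ β H A hA) (radical hφ hβ0 H A hH') N hN hneu S hS
    hNS, ?_⟩
  obtain ⟨L, h1, h2, ⟨h3, h4⟩, h5⟩ := main hφ hβ hnβ (-(H * A)) A (neg_pair_phiT _ hG) (by
      intro x y
      rw [pair_neg, pair_neg, mul_neg, mul_neg, skew hφ β H A hA])
    (by
      intro x hx
      apply radical hφ hβ0 H A hH'
      intro y
      have h6 := hx y
      rw [pair_neg, mul_neg, neg_eq_zero] at h6
      exact h6)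
    N hN (by
      intro x hx y hy
      rw [pair_neg, hneu x hx y hy, neg_zero]) S hS hNS
  have hn : ∀ M : Sub n, Nonneg φ β (-(H * A)) M ↔ Nonpos φ β (H * A) M := by
    intro M
    constructor
    · intro h x hx
      obtain ⟨r, hr, he⟩ := h x hx
      refine ⟨-r, by linarith, ?_⟩
      rw [pair_neg, mul_neg] at he
      rw [Quaternion.coe_neg, ← he, neg_neg]
    · intro h x hx
      obtain ⟨r, hr, he⟩ := h x hx
      refine ⟨-r, by linarith, ?_⟩
      rw [pair_neg, mul_neg, he, Quaternion.coe_neg]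
  exact ⟨L, h1, h2, ⟨(hn L).1 h3, fun M hM hM' => h4 M hM ((hn M).2 hM')⟩, h5⟩

end Pool.Agent.Results.MP_64d585_al.CSetExtension
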